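import Pool.Agent.H9.FC.TB

/-! Capture of names of reals, and stems. -/

namespace Pool.Agent.H98.FC

open Set Pool.Agent.H9.FC

theorem one_le_w (p : Par) (l i : ℕ) : 1 ≤ p.w l i := by
  induction l with
  | zero => exact p.w_zero i
  | succ l ih => exact le_trans (by omega) (p.w_succ l i)

theorem pf_CAP (hE : T_EXT) : T_CAP := by
  intro p Ω _ _ β γ z hβ hz hzd hza U hU
  obtain ⟨V, hV, s, l, φ, hs, hl, -, hφ, hVU, hR⟩ := hE p Ω β γ 0 U hβ hU
  obtain ⟨hφ1, hφ2, hφ3⟩ := hφ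
  have hname : IsName p (PP p β) β (l + 1) (fun x i => insert (z x i) (φ x i)) := by
    refine ⟨fun x i => ⟨?_, ?_⟩, ?_, ?_⟩
    · intro t ht
      rcases Finset.mem_insert.1 ht with h | h
      · rw [h]; exact Finset.mem_range.2 (hza x i)
      · exact (hφ1 x i).1 h
    · have h1 := Finset.card_insert_le (z x i) (φ x i)
      have h2 := (hφ1 x i).2
      have h3 := one_le_w p l i
      have h4 := p.w_succ l i
      show (insert (z x i) (φ x i)).card ≤ p.w (l + 1) i
      omega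
    · intro x x' hxx
      have h1 := hz x x' hxx
      have h2 := hφ2 x x' hxx
      funext i
      show insert (z x i) (φ x i) = insert (z x' i) (φ x' i)
      rw [h1, h2]
    · intro i W hW
      obtain ⟨W1, hW1, hW1s, c, hc⟩ := hφ3 i W hW
      obtain ⟨W2, hW2, hW2s, d, hd⟩ := hzd i W1 hW1
      refine ⟨W2, hW2, hW2s.trans hW1s, insert d c, fun x hx => ?_⟩
      show insert (z x i) (φ x i) = insert d c
      have h1 : φ x i = c := hc x (hW2s hx)
      have h2 : z x i = d := hd x hx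
      rw [h1, h2]
  have hsub : V ∩ atom β s (fun x i => insert (z x i) (φ x i)) ⊆ V ∩ atom β s φ := by
    rintro x ⟨hx1, hx2, hx3⟩
    exact ⟨hx1, hx2, fun i hi => (Finset.subset_insert _ _).trans (hx3 i hi)⟩
  refine ⟨_, hR V hV s (l + 1) _ hs (by omega) hname hsub, inter_subset_right, s.length, ?_⟩
  rintro i hi x ⟨⟨-, -, hx3⟩, -⟩
  exact hx3 i hi (Finset.mem_insert_self _ _)

theorem pf_STM (hE : T_EXT) : T_STM := by
  intro p Ω _ _ β γ N hβ U hU
  obtain ⟨V, hV, s, l, φ, hs, hl, hN, hφ, hVU, hR⟩ := hE p Ω β γ N U hβ hU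
  refine ⟨_, hR V hV s l φ hs (by omega) hφ subset_rfl, inter_subset_right, s, hs, hN, ?_⟩
  rintro x ⟨⟨-, hx2, -⟩, -⟩ i hi
  exact hx2 i hi

end Pool.Agent.H98.FC
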