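import Pool.Agent.H9.FC.TC
import Pool.Agent.H9.FC.TB

/-! Ground model functions are unbounded, Boolean form. -/

namespace Pool.Agent.H98.FC

open Set Pool.Agent.H9.FC

theorem meetF_congr (p : Par) (n d : ℕ) (h h' : ℕ → ℕ) (hh : ∀ j < d, h (n + j) = h' (n + j)) :
    meetF p n d h = meetF p n d h' := by
  unfold meetF
  apply Finset.filter_congr
  intro u _
  constructor
  · rintro ⟨j, hj, hu⟩
    exact ⟨j, hj, by rw [hu, hh j hj]⟩
  · rintro ⟨j, hj, hu⟩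
    exact ⟨j, hj, by rw [hu, hh j hj]⟩

theorem res_getD (x : ℕ → ℕ) (i d j : ℕ) (hj : j < d) : (res x i d).getD j 0 = x (i + j) := by
  unfold res
  rw [List.getD_eq_getElem?_getD]
  simp [hj]

open Classical in
/-- the name of a bound -/
noncomputable def yy (p : Par) {Ω : Type} (fj fh : Pt Ω → ℕ → ℕ) (t : Pt Ω) (n : ℕ) : BVal :=
  if n ≤ fj t n ∧ fj t n < fj t (n + 1) ∧ ∀ k, fj t n ≤ k → k < fj t (n + 1) → fh t k < p.b k then
    (fj t n, fj t (n + 1) - fj t n, meetF p (fj t n) (fj t (n + 1) - fj t n) (fh t))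
  else (n, 0, ∅)

theorem yy_congr (p : Par) {Ω : Type} (fj fh : Pt Ω → ℕ → ℕ) (t t' : Pt Ω) (n : ℕ)
    (h1 : fj t n = fj t' n) (h2 : fj t (n + 1) = fj t' (n + 1))
    (h3 : ∀ k < fj t (n + 1), fh t k = fh t' k) : yy p fj fh t n = yy p fj fh t' n := by
  unfold yy
  have e : (n ≤ fj t n ∧ fj t n < fj t (n + 1) ∧
      ∀ k, fj t n ≤ k → k < fj t (n + 1) → fh t k < p.b k) ↔
      (n ≤ fj t' n ∧ fj t' n < fj t' (n + 1) ∧
      ∀ k, fj t' n ≤ k → k < fj t' (n + 1) → fh t' k < p.b k) := by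
    rw [← h1, ← h2]
    constructor
    · rintro ⟨a, b, c⟩
      exact ⟨a, b, fun k hk hk' => by rw [← h3 k hk']; exact c k hk hk'⟩
    · rintro ⟨a, b, c⟩
      exact ⟨a, b, fun k hk hk' => by rw [h3 k hk']; exact c k hk hk'⟩
  by_cases hc : n ≤ fj t n ∧ fj t n < fj t (n + 1) ∧
      ∀ k, fj t n ≤ k → k < fj t (n + 1) → fh t k < p.b k
  · rw [if_pos hc, if_pos (e.1 hc), ← h1, ← h2]
    rw [meetF_congr p (fj t n) (fj t (n + 1) - fj t n) (fh t) (fh t')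
      (fun j hj => h3 _ (by omega))]
  · rw [if_neg hc, if_neg (fun h => hc (e.2 h))]

theorem yy_name (hN : T_NBM) (hD : T_DCF) (p : Par) {Ω : Type} [LinearOrder Ω]
    [WellFoundedLT Ω] (fj fh : Pt Ω → ℕ → ℕ) (γ : Ω)
    (hj : DepLt γ fj) (hh : DepLt γ fh) (hjd : ∀ n, Dec (PP p γ) (fun x => fj x n))
    (hhd : ∀ n, Dec (PP p γ) (fun x => fh x n)) : IsBName p γ 0 (yy p fj fh) := by
  refine ⟨?_, ?_, ?_⟩
  · intro t n
    unfold yy
    split_ifs with hc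
    · exact ⟨hc.1, hN p _ _ _⟩
    · refine ⟨le_rfl, ?_⟩
      intro hb
      simp [Big] at hb
  · intro t t' htt
    have e1 := hj t t' htt
    have e2 := hh t t' htt
    funext n
    exact yy_congr p fj fh t t' n (by rw [e1]) (by rw [e1]) (fun k _ => by rw [e2])
  · intro n U hU
    obtain ⟨V1, hV1, hV1s, P, hP⟩ := hjd n U hU
    obtain ⟨V2, hV2, hV2s, Q, hQ⟩ := hjd (n + 1) V1 hV1
    obtain ⟨V3, hV3, hV3s, hc⟩ := hD p Ω γ ℕ fh Q V2 hhd hV2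
    refine ⟨V3, hV3, (hV3s.trans hV2s).trans hV1s, ?_⟩
    by_cases hne : V3.Nonempty
    · obtain ⟨t0, ht0⟩ := hne
      refine ⟨yy p fj fh t0 n, fun t ht => ?_⟩
      have a1 : fj t n = P := hP t (hV2s (hV3s ht))
      have a2 : fj t0 n = P := hP t0 (hV2s (hV3s ht0))
      have b1 : fj t (n + 1) = Q := hQ t (hV3s ht)
      have b2 : fj t0 (n + 1) = Q := hQ t0 (hV3s ht0)
      refine yy_congr p fj fh t t0 n (by rw [a1, a2]) (by rw [b1, b2]) ?_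
      intro k hk
      rw [b1] at hk
      obtain ⟨c, hcc⟩ := hc k hk
      rw [hcc t ht, hcc t0 ht0]
    · rw [Set.not_nonempty_iff_eq_empty] at hne
      exact ⟨(0, 0, ∅), fun t ht => by rw [hne] at ht; exact ht.elim⟩

theorem pf_UNB (hC : T_CNV) (hP : T_PRE) (hDI : T_DIA) (hA : T_AMA) (hB : T_BAS) (hD : T_DCF)
    (hX : T_BOX) (hN : T_NBM) : T_UNB := by
  intro p Ω _ _ _ hHC j h hj hh
  obtain ⟨β1, hβ1, fj, fj1, fj2, -, fj4⟩ := hC p Ω hHC ℕ 0 j hj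
  obtain ⟨β2, hβ2, fh, fh1, fh2, -, fh4⟩ := hC p Ω hHC ℕ 0 h hh
  have hγ : max β1 β2 < (⊤ : Ω) := max_lt hβ1 hβ2
  generalize hγe : max β1 β2 = γ at hγ
  have hb1 : β1 ≤ γ := hγe ▸ le_max_left _ _
  have hb2 : β2 ≤ γ := hγe ▸ le_max_right _ _
  have gj1 : DepLt γ fj := fun t t' htt => fj1 t t' (fun δ hδ => htt δ (lt_of_lt_of_le hδ hb1))
  have gh1 : DepLt γ fh := fun t t' htt => fh1 t t' (fun δ hδ => htt δ (lt_of_lt_of_le hδ hb2))
  have gj2 : ∀ n, Dec (PP p γ) (fun x => fj x n) := fun n =>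
    (hA p Ω).2 β1 γ ℕ (fun x => fj x n) hb1
      (fun t t' htt => by show fj t n = fj t' n; rw [fj1 t t' htt]) (fj2 n)
  have gh2 : ∀ n, Dec (PP p γ) (fun x => fh x n) := fun n =>
    (hA p Ω).2 β2 γ ℕ (fun x => fh x n) hb2
      (fun t t' htt => by show fh t n = fh t' n; rw [fh1 t t' htt]) (fh2 n)
  have hy := yy_name hN hD p fj fh γ gj1 gh1 gj2 gh2
  obtain ⟨H, hH1, hH2⟩ := hP p Ω γ 0 _ hy
  obtain ⟨x, hx1, hx2⟩ := hDI p H hH1
  refine ⟨x, hx1, fun n₀ => ?_⟩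
  apply top_unique
  intro q _
  rw [RO.mem_iSup]
  intro q' _
  have hsat := (hB p Ω).2.2.1 γ ⊤ q'.1 q'.2
  have hnf : ¬ Fo p γ (sat γ q'.1) x (yy p fj fh) n₀ := by
    intro hf
    obtain ⟨k, hk⟩ := hH2 x hx1 _ hsat n₀ hf
    exact hx2 k hk
  unfold Fo at hnf
  push Not at hnf
  obtain ⟨n, hn, V, hV, hVs, c, hVc, hhit⟩ := hnf
  obtain ⟨V1, hV1, hV1s, P, hPc⟩ := gj2 n V hV
  obtain ⟨V2, hV2, hV2s, Q, hQc⟩ := gj2 (n + 1) V1 hV1
  obtain ⟨V3, hV3, hV3s, hc⟩ := hD p Ω γ ℕ fh Q V2 gh2 hV2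
  have hV3V : V3 ⊆ V := (hV3s.trans hV2s).trans hV1s
  have hr : V3 ∩ q'.1 ∈ PP p (⊤ : Ω) :=
    (hA p Ω).1 γ ⊤ V3 q'.1 le_top hV3 q'.2 (hV3V.trans hVs)
  choose! val hval using hc
  have hlist : ∀ i < Q - P, ((List.range (Q - P)).map (fun i => val (P + i))).getD i 0
      = val (P + i) := by
    intro i hi
    rw [List.getD_eq_getElem?_getD]
    simp [hi]
  have hlen : ((List.range (Q - P)).map (fun i => val (P + i))).length = Q - P := by simp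
  have hbad : Bad p x n (P, Q, (List.range (Q - P)).map (fun i => val (P + i))) := by
    refine ⟨hlen, ?_⟩
    rintro ⟨hnP, hPQ, hbb, i, hi, hxi⟩
    dsimp only at hnP hPQ hbb hi hxi
    rw [hlen] at hbb hi
    rw [hlist i hi] at hxi
    obtain ⟨t0, ht0⟩ := (hB p Ω).2.2.2.1 γ V3 hV3
    have a2 : fj t0 n = P := hPc t0 (hV2s (hV3s ht0))
    have b2 : fj t0 (n + 1) = Q := hQc t0 (hV3s ht0)
    have hcv : yy p fj fh t0 n = c := hVc t0 (hV3V ht0)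
    have hleg : n ≤ fj t0 n ∧ fj t0 n < fj t0 (n + 1) ∧
        ∀ k, fj t0 n ≤ k → k < fj t0 (n + 1) → fh t0 k < p.b k := by
      rw [a2, b2]
      refine ⟨hnP, hPQ, fun k hk hk' => ?_⟩
      have h1 := hbb (k - P) (by omega)
      rw [hlist (k - P) (by omega)] at h1
      have h2 : P + (k - P) = k := by omega
      rw [h2] at h1
      have h3 : fh t0 k = val k := hval k hk' t0 ht0
      rw [h3]
      exact h1
    apply hhit
    rw [← hcv]
    unfold yy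
    rw [if_pos hleg, a2, b2]
    show res x P (Q - P) ∈ meetF p P (Q - P) (fh t0)
    unfold meetF
    rw [Finset.mem_filter]
    refine ⟨?_, i, hi, ?_⟩
    · rw [hX]
      refine ⟨by simp [res], fun j hj => ?_⟩
      rw [res_getD x P _ j hj]
      exact hx1 _
    · rw [res_getD x P _ i hi, hxi]
      exact (hval (P + i) (by omega) t0 ht0).symm
  refine ⟨⟨V3 ∩ q'.1, hr⟩, inter_subset_right, n - n₀, ?_⟩
  have hnn : n₀ + (n - n₀) = n := by omega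
  rw [hnn]
  unfold avoid
  rw [RO.mem_iSup]
  intro q'' hq''
  refine ⟨q'', le_rfl, ⟨_, hbad⟩, ?_⟩
  rw [RO.mem_inf, RO.mem_inf, RO.mem_iInf]
  have hsub : ∀ t ∈ q''.1, t ∈ V3 := fun t ht => (hq'' ht).1
  refine ⟨⟨fj4 n P q'' (fun t ht => hPc t (hV2s (hV3s (hsub t ht)))),
    fj4 (n + 1) Q q'' (fun t ht => hQc t (hV3s (hsub t ht)))⟩, ?_⟩
  rintro ⟨i, hi⟩
  dsimp only at hi ⊢
  rw [hlen] at hi
  rw [hlist i hi]
  exact fh4 (P + i) _ q'' (fun t ht => hval (P + i) (by omega) t (hsub t ht))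

end Pool.Agent.H98.FC
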